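import Pool.Agent.H75.CO.Defs
import Pool.Agent.H25.CO.Bas

/-!
# H97 CO, Equ: equivariance of weak and strong windows
-/

set_option autoImplicit false

namespace Pool.Agent.H97.CO

open Pool.Agent.H54.TT Pool.Agent.H98.RH Pool.Agent.H75.CO Pool.Agent.H25.CO Matrix
open scoped Pointwise

variable {K : Type} [Field K] {v : K → ℤ} {hv : IsDV v} {π : Kˣ} {n : ℕ} {G : Type} [Group G]
  {ρ : G →* GL (Fin n) K} {S : Set G} {R : ℕ}

theorem La_mul (x g : G) : La hv ρ (x * g) = mv (ρ x) (La hv ρ g) := by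
  unfold La
  rw [mv_LM, map_mul]

theorem sg_mv (hπ : v π = 1) (x : GL (Fin n) K) (M : Lt hv n) (B : ℝ → Lt hv n) (k : Fin n) (t : ℝ) :
    sg π (mv x M) (fun t => mv x (B t)) k t = mv x (sg π M B k t) := by
  unfold sg
  rw [bt_mv hπ, mv_sup, mv_bl]

theorem kap_mv (hπ : v π = 1) (x g h : G) (B : ℝ → Lt hv n) (W : Lt hv n) (k : Fin n) :
    kap π ρ (fun t => mv (ρ x) (B t)) (mv (ρ x) W) k (x * g) (x * h) = kap π ρ B W k g h := by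
  unfold kap
  rw [La_mul, La_mul, ← mv_inf]
  have h1 : sg π (mv (ρ x) (La hv ρ g)) (fun t => mv (ρ x) (B t)) k = fun t => mv (ρ x) (sg π (La hv ρ g) B k t) := by
    funext t
    exact sg_mv hπ _ _ _ _ _
  rw [h1, kp_mv]

theorem hl_mv (x g : G) (m : ℕ) (W : Lt hv n) {κ κ' : G → ℝ} (hκ : ∀ y, κ' (x * y) = κ y) (t : ℝ) :
    hl π ρ S (x * g) m (mv (ρ x) W) κ' t = mv (ρ x) (hl π ρ S g m W κ t) := by
  unfold hl
  rw [mv_iSup]
  refine iSup_congr fun s => ?_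
  rw [mv_iSup]
  refine iSup_congr fun hs => ?_
  rw [mv_inf, mul_assoc, hκ, La_mul, mv_bl]

theorem Fb_mv (ε : ℝ) (x g : G) (M : ℕ) (W W1 : Lt hv n) {κ κ' : G → ℝ} (hκ : ∀ y, κ' (x * y) = κ y) (t : ℝ) :
    Fb π ρ S ε (x * g) M (mv (ρ x) W) (mv (ρ x) W1) κ' t = mv (ρ x) (Fb π ρ S ε g M W W1 κ t) := by
  unfold Fb
  rw [mv_sup, mv_iSup]
  congr 1
  refine iSup_congr fun m => ?_
  rw [mv_iSup]
  refine iSup_congr fun hm => ?_
  rw [hκ, hl_mv x g m W hκ]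

theorem Sp_mv (hπ : v π = 1) {A L1 N : ℕ} (d : Dat n N) (x g : G) (B : ℝ → Lt hv n) (W W1 : Lt hv n) :
    Sp π ρ S A L1 d (x * g) (fun t => mv (ρ x) (B t)) (mv (ρ x) W) (mv (ρ x) W1) =
      fun t => mv (ρ x) (Sp π ρ S A L1 d g B W W1 t) := by
  funext t
  unfold Sp
  exact Fb_mv _ _ _ _ _ _ (fun y => kap_mv hπ x g y B W d.k) t

theorem Lv_mv (hπ : v π = 1) {A L1 N : ℕ} {θ : ℝ} {d : Dat n N} {x g : G} {B : ℝ → Lt hv n} {W W1 : Lt hv n}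
    (h : Lv π ρ S A L1 θ d g B W W1) :
    Lv π ρ S A L1 θ d (x * g) (fun t => mv (ρ x) (B t)) (mv (ρ x) W) (mv (ρ x) W1) where
  le := mv_mono h.le
  y1 := by
    rw [kap_mv hπ]
    exact h.y1
  y2 := by
    intro k' hk'
    rw [La_mul, sg_mv hπ, ← mv_inf]
    exact mv_mono (h.y2 k' hk')
  t1 := by
    rw [kap_mv hπ, hl_mv x g _ W (fun y => kap_mv hπ x g y B W d.k), La_mul, ← mv_inf]
    exact mv_mono h.t1
  t2 := by
    intro T hT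
    rw [kap_mv hπ, hl_mv x g _ W (fun y => kap_mv hπ x g y B W d.k), La_mul, ← mv_inf, ← mv_bl, ← mv_sup]
    exact mv_mono (h.t2 T hT)

theorem Tw_mv (hπ : v π = 1) {A L1 N : ℕ} {θ : ℝ} {r : ℕ} {d : ℕ → Dat n N} {x g : G} {B : ℝ → Lt hv n} {W : ℕ → Lt hv n}
    (h : Tw π ρ S A L1 θ r d g B W) :
    Tw π ρ S A L1 θ r d (x * g) (fun t => mv (ρ x) (B t)) (fun l => mv (ρ x) (W l)) where
  top := by rw [h.top, mv_top]
  bot := by rw [h.bot, mv_bot]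
  ne := fun l hl h0 => h.ne l hl (mv_eq_bot.1 h0)
  sub := fun l hl => mv_isSub (h.sub l hl)
  lv := fun l hl => Lv_mv hπ (h.lv l hl)

theorem Le_mv (x : GL (Fin n) K) (Φ : ℝ → Lt hv n) (c : ℝ) : Le (fun t => mv x (Φ t)) c = Le Φ c := by
  ext t
  unfold Le
  simp only [Set.mem_ofPred_eq, ne_eq, mv_inj]

theorem Gap_mv (hπ : v π = 1) {A L1 N : ℕ} {r : ℕ} {d : ℕ → Dat n N} {x g : G} {B : ℝ → Lt hv n} {W : ℕ → Lt hv n}
    (h : Gap π ρ S A L1 r d g B W) :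
    Gap π ρ S A L1 r d (x * g) (fun t => mv (ρ x) (B t)) (fun l => mv (ρ x) (W l)) := by
  intro l hl
  rw [Sp_mv hπ, Le_mv, Le_mv]
  exact h l hl

theorem Wd_mv (hπ : v π = 1) {A L1 N : ℕ} {r : ℕ} {d : ℕ → Dat n N} {x g : G} {B : ℝ → Lt hv n} {W : ℕ → Lt hv n}
    {p : ℕ → ℤ → ℝ} {f : (Fin (r + 1) → ℤ) → Lt hv n} (h : Wd π ρ S A L1 r d g B W p f) :
    Wd π ρ S A L1 r d (x * g) (fun t => mv (ρ x) (B t)) (fun l => mv (ρ x) (W l)) p (fun i => mv (ρ x) (f i)) where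
  en := by
    intro l hl
    rw [Sp_mv hπ, Le_mv]
    exact h.en l hl
  eq := by
    intro i
    rw [h.eq, mv_iSup]
    refine iSup_congr fun l => ?_
    rw [Sp_mv hπ, mv_inf, mv_bl, La_mul]

/-- (C5) equivariance -/
theorem weak_equiv {A c N r : ℕ} {d : ℕ → Dat n N} (hs : Stp hv π ρ S R) (h g : G) {B : ℝ → Lt hv n} (_hB : Hn B)
    {f : (Fin (r + 1) → ℤ) → Lt hv n} (hf : Wk π ρ S A c r d g B f) :
    Wk π ρ S A c r d (h * g) (fun t => mv (ρ h) (B t)) (fun i => mv (ρ h) (f i)) := by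
  obtain ⟨W, p, h1, h2⟩ := hf
  exact ⟨fun l => mv (ρ h) (W l), p, Tw_mv hs.unif h1, Wd_mv hs.unif h2⟩

/-- (C5) equivariance for strong windows -/
theorem strong_equiv {A c N r : ℕ} {d : ℕ → Dat n N} (hs : Stp hv π ρ S R) (h g : G) {B : ℝ → Lt hv n} (_hB : Hn B)
    {f : (Fin (r + 1) → ℤ) → Lt hv n} (hf : St π ρ S A c r d g B f) :
    St π ρ S A c r d (h * g) (fun t => mv (ρ h) (B t)) (fun i => mv (ρ h) (f i)) := by
  obtain ⟨W, p, h1, h2, h3⟩ := hf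
  exact ⟨fun l => mv (ρ h) (W l), p, Tw_mv hs.unif h1, Gap_mv hs.unif h2, Wd_mv hs.unif h3⟩

end Pool.Agent.H97.CO
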