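import Pool.Agent.H75.CO.Flt
import Pool.Agent.H75.CO.Enu

/-!
# H97 CO, Inj: windows are injective
-/

set_option autoImplicit false

namespace Pool.Agent.H97.CO

open Pool.Agent.H54.TT Pool.Agent.H98.RH Pool.Agent.H75.CO Matrix
open scoped Pointwise

variable {K : Type} [Field K] {v : K → ℤ} {hv : IsDV v} {π : Kˣ} {n : ℕ} {G : Type} [Group G]
  {ρ : G →* GL (Fin n) K} {S : Set G} {R : ℕ}

/-! ### numeric facts -/

theorem AA_ge (n R : ℕ) : 1000000 * (R + 1) ≤ AA n R := by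
  unfold AA
  have h1 : 1 ≤ (n + 2) * 4 ^ (n + 2) := Nat.mul_pos (by omega) (by positivity)
  calc 1000000 * (R + 1) = 10 ^ 6 * 1 * (R + 1) := by norm_num
    _ ≤ 10 ^ 6 * ((n + 2) * 4 ^ (n + 2)) * (R + 1) := by gcongr
    _ = 10 ^ 6 * (n + 2) * 4 ^ (n + 2) * (R + 1) := by ring

theorem AA_pos (n R : ℕ) : 1 ≤ AA n R := le_trans (by omega) (AA_ge n R)

theorem Ln_mono {A c i j : ℕ} (hA : 1 ≤ A) (h : i ≤ j) : Ln A c i ≤ Ln A c j :=
  Nat.mul_le_mul_right c (Nat.pow_le_pow_right hA h)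

theorem Ln_ge {A c i : ℕ} (hA : 1 ≤ A) : c ≤ Ln A c i := by
  unfold Ln
  exact Nat.le_mul_of_pos_left c (Nat.pow_pos hA)

theorem Ln_succ (A c i : ℕ) : Ln A c (i + 1) = A * Ln A c i := by
  unfold Ln
  ring

theorem ep_nonneg (n : ℕ) : 0 ≤ ep n := by
  unfold ep
  positivity

/-- in a regime the indices `a` increase -/
theorem Rg.a_le {N r : ℕ} {d : ℕ → Dat n N} (hd : Rg r d) {l : ℕ} (hl : l ≤ r) : ((d l).a : ℕ) ≤ (d r).a := by
  induction r, hl using Nat.le_induction with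
  | base => exact le_rfl
  | succ m hm ih =>
    have hd' : Rg m d := ⟨by have := hd.lt; omega, fun l hl => hd.c1 l (by omega), fun l hl => hd.c2 l (by omega)⟩
    have h1 := ih hd'
    have h2 := (hd.c2 m (by omega)).1
    have h3 := (hd.c1 (m + 1) le_rfl).1
    omega

/-- the size of the gaps between the centres -/
theorem Gm_ge {c : ℕ} (hc : 1 ≤ c) {r : ℕ} {d : ℕ → Dat n (NN n)} (hd : Rg r d) :
    2 * (((c : ℝ) + 1) + 2 * R * (Ln (AA n R) c ((d r).a + 1) : ℕ) + 2) ≤ Gm (AA n R) c r d := by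
  have h1 := hd.c1 r le_rfl
  have h2 : ((d r).a : ℕ) + 1 + 1 ≤ (d r).be - 2 := by omega
  have h3 : Ln (AA n R) c ((d r).a + 1 + 1) ≤ Ln (AA n R) c ((d r).be - 2) := Ln_mono (AA_pos n R) h2
  rw [Ln_succ] at h3
  obtain ⟨X, hX⟩ : ∃ X, X = Ln (AA n R) c ((d r).a + 1) := ⟨_, rfl⟩
  rw [← hX] at h3 ⊢
  have h4 : c ≤ X := by
    rw [hX]
    exact Ln_ge (AA_pos n R)
  have h5 : 1000000 * (R + 1) * X ≤ AA n R * X := Nat.mul_le_mul_right X (AA_ge n R)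
  have h6 : 2 * ((c + 1) + 2 * R * X + 2) ≤ 1000000 * (R + 1) * X := by
    have h7 : 1 ≤ X := hc.trans h4
    nlinarith
  have h8 : 2 * ((c + 1) + 2 * R * X + 2) ≤ Ln (AA n R) c ((d r).be - 2) := h6.trans (h5.trans h3)
  unfold Gm
  exact_mod_cast h8

/-! ### the blocks of a tower -/

theorem Bk.mono (hπ : v π = 1) {M W W1 : Lt hv n} {Φ : ℝ → Lt hv n} {X0 X1 : ℝ} (h : Bk π M W W1 Φ X0) (hX : X0 ≤ X1) :
    Bk π M W W1 Φ X1 where
  nm := h.nm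
  le := h.le
  ge := h.ge
  big := h.big
  gen := fun t => (h.gen t).trans (sup_le_sup_right (inf_le_inf_left _ (bl_mono hπ M (by linarith))) _)

theorem Tw.sub_succ {A c N r : ℕ} {θ : ℝ} {d : ℕ → Dat n N} {g : G} {B : ℝ → Lt hv n} {W : ℕ → Lt hv n}
    (h : Tw π ρ S A c θ r d g B W) {l : ℕ} (hl : l ≤ r) : IsSub (W (l + 1)) := by
  rcases Nat.lt_or_ge l r with h1 | h1
  · exact h.sub (l + 1) h1
  · have h2 : l = r := le_antisymm hl h1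
    rw [h2, h.bot]
    exact isSub_bot

theorem Tw.bk {A c N r : ℕ} {θ : ℝ} {d : ℕ → Dat n N} {g : G} {B : ℝ → Lt hv n} {W : ℕ → Lt hv n} (hs : Stp hv π ρ S R)
    (hB : Hn B) (h : Tw π ρ S A c θ r d g B W) {l : ℕ} (hl : l ≤ r) :
    Bk π (La hv ρ g) (W l) (W (l + 1)) (Sp π ρ S A c (d l) g B (W l) (W (l + 1)))
      (2 * R * (Ln A c ((d l).a + 1) : ℕ)) :=
  Fb_bk hs (h.sub l hl) (Tw.sub_succ h hl) (h.lv l hl).le (kap_lp hs hB (h.sub l hl) (h.ne l hl) _ g) (ep_nonneg n) g _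

/-- two left endpoints with the same ball are equal -/
theorem Le.eq {P : Type} {Φ : ℝ → P} {c s t : ℝ} (hs : s ∈ Le Φ c) (ht : t ∈ Le Φ c) (h : Φ s = Φ t) : s = t := by
  rcases lt_trichotomy s t with h1 | h1 | h1
  · exact absurd h (ht.2 s h1)
  · exact h1
  · exact absurd h.symm (hs.2 t h1)

/-- (C4) windows are injective -/
theorem weak_inj (_hn : 0 < n) (hs : Stp hv π ρ S R) {c : ℕ} (hc : 1 ≤ c) {r : ℕ} {d : ℕ → Dat n (NN n)} (hd : Rg r d)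
    {g : G} {B : ℝ → Lt hv n} (hB : Hn B) {f : (Fin (r + 1) → ℤ) → Lt hv n} (hf : Wk π ρ S (AA n R) c r d g B f)
    {i i' : Fin (r + 1) → ℤ} (hi : ∀ l, |i l| ≤ c) (hi' : ∀ l, |i' l| ≤ c) (h : f i = f i') : i = i' := by
  obtain ⟨W, p, hT, hW⟩ := hf
  obtain ⟨Φ, hΦ⟩ : ∃ Φ : ℕ → ℝ → Lt hv n, Φ = fun l => Sp π ρ S (AA n R) c (d l) g B (W l) (W (l + 1)) := ⟨_, rfl⟩
  obtain ⟨Γ, hΓ⟩ : ∃ Γ, Γ = Gm (AA n R) c r d := ⟨_, rfl⟩
  have hΓ' : 2 * (((c : ℝ) + 1) + 2 * R * (Ln (AA n R) c ((d r).a + 1) : ℕ) + 2) ≤ Γ := by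
    rw [hΓ]
    exact Gm_ge hc hd
  have hbk : ∀ l, l ≤ r → Bk π (La hv ρ g) (W l) (W (l + 1)) (Φ l) (2 * R * (Ln (AA n R) c ((d r).a + 1) : ℕ)) := by
    intro l hl
    have h1 := Tw.bk hs hB hT hl
    rw [hΦ]
    refine Bk.mono hs.unif h1 ?_
    have h2 : Ln (AA n R) c ((d l).a + 1) ≤ Ln (AA n R) c ((d r).a + 1) :=
      Ln_mono (AA_pos n R) (Nat.succ_le_succ (Rg.a_le hd hl))
    have h3 : ((Ln (AA n R) c ((d l).a + 1) : ℕ) : ℝ) ≤ (Ln (AA n R) c ((d r).a + 1) : ℕ) := by exact_mod_cast h2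
    have h4 : (0 : ℝ) ≤ R := Nat.cast_nonneg R
    exact mul_le_mul_of_nonneg_left h3 (by positivity)
  have hen : ∀ l, l ≤ r → En (Le (Φ l) (md n (d l).j)) (l * Γ) (p l) := by
    intro l hl
    rw [hΦ, hΓ]
    exact hW.en l hl
  have hper : ∀ l, l ≤ r → ∀ x, x + 1 ∈ Le (Φ l) (md n (d l).j) ↔ x ∈ Le (Φ l) (md n (d l).j) := by
    intro l hl x
    have h1 := le_add_int (π := π) (hbk l hl).nm (c := md n (d l).j) (t := x) 1
    rw [Int.cast_one] at h1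
    exact h1
  -- positions
  obtain ⟨q, hq⟩ : ∃ q : (Fin (r + 1) → ℤ) → ℕ → ℝ, q = fun i l => if h : l < r + 1 then p l (i ⟨l, h⟩) else l * Γ :=
    ⟨_, rfl⟩
  have hqe : ∀ (i : Fin (r + 1) → ℤ) (l : Fin (r + 1)), q i l = p l (i l) := by
    intro i l
    rw [hq]
    show (if h : (l : ℕ) < r + 1 then p l (i ⟨l, h⟩) else l * Γ) = _
    rw [dif_pos l.2]
  have hqb : ∀ i : Fin (r + 1) → ℤ, (∀ l, |i l| ≤ c) → ∀ l, l ≤ r → |q i l - l * Γ| ≤ (c : ℝ) + 1 := by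
    intro i hi l hl
    have h1 := hqe i ⟨l, Nat.lt_succ_of_le hl⟩
    have h2 := (hen l hl).pos (hper l hl) (i ⟨l, Nat.lt_succ_of_le hl⟩)
    have h3 : |((i ⟨l, Nat.lt_succ_of_le hl⟩ : ℤ) : ℝ)| ≤ c := by
      have := hi ⟨l, Nat.lt_succ_of_le hl⟩
      exact_mod_cast this
    rw [show q i l = p l (i ⟨l, Nat.lt_succ_of_le hl⟩) from h1]
    linarith
  have hfe : ∀ i : Fin (r + 1) → ℤ, f i = ⨆ l : Fin (r + 1), Φ l (q i l) ⊓ bl π (La hv ρ g) (l * Γ + Γ / 2) := by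
    intro i
    rw [hW.eq i]
    refine iSup_congr fun l => ?_
    rw [hqe, hΦ, hΓ]
  have key : ∀ i i' : Fin (r + 1) → ℤ, (∀ l, |i l| ≤ c) → (∀ l, |i' l| ≤ c) → f i = f i' →
      ∀ l, l ≤ r → Φ l (q i l) ≤ Φ l (q i' l) := by
    intro i i' hi hi' h
    refine flat_inj hs.unif hT.bot (fun l hl => (hT.lv l hl).le) hbk (hqb i hi) (hqb i' hi') ?_ ?_ hΓ' ?_
    · have h4 : (0 : ℝ) ≤ R := Nat.cast_nonneg R
      positivity
    · positivity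
    · rw [← hfe, ← hfe, h]
  funext l
  have hl : (l : ℕ) ≤ r := Nat.lt_succ_iff.1 l.2
  have h1 : Φ l (q i l) = Φ l (q i' l) := le_antisymm (key i i' hi hi' h l hl) (key i' i hi' hi h.symm l hl)
  rw [hqe, hqe] at h1
  have hm : ∀ k : ℤ, p l k ∈ Le (Φ l) (md n (d l).j) := by
    intro k
    rw [← (hen l hl).rng]
    exact ⟨k, rfl⟩
  exact (hen l hl).mono.injective (Le.eq (hm _) (hm _) h1)

end Pool.Agent.H97.CO
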